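import Pool.Agent.U691.Shang.Exi
import Pool.Agent.U691.Shang.Alg

/-!
# Shang's character formula fails for `dim V = 2`

For `dim V = 2` the defining equations for `(a(V), b(V))` have exactly one solution, and its first
member is not the class `[Alt(V)]` of the free alternative algebra.  (The first discrepancy is in
degree `17`.)  All definitions are in `Pool/Agent/U691/Shang/Defs.lean`.
-/

set_option autoImplicit false

namespace Pool.Agent.Results.MP_9e3efc_al.FailsInRankTwo

open Pool.Agent.U691.Shang

/-- For every field `F` and `dim V = 2`: there is exactly one pair `(a(V), b(V))` which satisfies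
the defining equations, and `a(V) ≠ [Alt(V)]`. -/
theorem result (F : Type) [Field F] : ∃ a b : R 2, IsShangPair a b ∧
    (∀ a' b' : R 2, IsShangPair a' b' → a' = a ∧ b' = b) ∧ chAlt F 2 ≠ a := by
  obtain ⟨a, b, h⟩ := exists_pair 2
  refine ⟨a, b, h, fun a' b' h' => pair_unique h' h, ?_⟩
  rintro rfl
  exact not_pair _ _ (fun m _ v _ => chAlt_nonneg F v) (fun m hm => sum_chAlt F m hm) h

end Pool.Agent.Results.MP_9e3efc_al.FailsInRankTwo
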